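import Pool.Agent.H25.BCE.Stmts
import Pool.Agent.H73.Cube

/-!
BCE, module CC2: commuting functions in the complement of the blocks, on the manifold.
-/

set_option autoImplicit false

namespace Pool.Agent.H25.BCE

open scoped ContDiff Topology
open Pool.Agent.H73 (P V ex ey pb solA solG mu0 Gam lin)

namespace CC2aux

/-- the linear part as a continuous linear map -/
noncomputable def cl (g : P 3 ≃ᵃ[ℝ] P 3) : P 3 →L[ℝ] P 3 :=
  LinearMap.toContinuousLinearMap (g.linear : P 3 →ₗ[ℝ] P 3)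

theorem cl_apply (g : P 3 ≃ᵃ[ℝ] P 3) (v : P 3) : cl g v = g.linear v := rfl

theorem apply_eq (g : P 3 ≃ᵃ[ℝ] P 3) (x : P 3) : g x = cl g x + g 0 := by
  have h : g (x +ᵥ (0 : P 3)) = g.linear x +ᵥ g 0 := AffineEquiv.map_vadd g 0 x
  simpa [cl_apply] using h

theorem hasFDerivAt (g : P 3 ≃ᵃ[ℝ] P 3) (x : P 3) : HasFDerivAt (fun y => g y) (cl g) x := by
  have : (fun y => g y) = fun y => cl g y + g 0 := funext (apply_eq g)
  rw [this]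
  exact (cl g).hasFDerivAt.add_const _

theorem affine_contDiff (g : P 3 ≃ᵃ[ℝ] P 3) : ContDiff ℝ ∞ (fun x => g x) := by
  have : (fun y => g y) = fun y => cl g y + g 0 := funext (apply_eq g)
  rw [this]
  exact (cl g).contDiff.add contDiff_const

theorem affine_continuous (g : P 3 ≃ᵃ[ℝ] P 3) : Continuous (fun x => g x) :=
  (affine_contDiff g).continuous

theorem inv_apply_self (g : P 3 ≃ᵃ[ℝ] P 3) (x : P 3) : g⁻¹ (g x) = x := by
  have h : (g⁻¹ * g) x = x := by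
    rw [inv_mul_cancel]
    rfl
  exact h

theorem apply_inv_self (g : P 3 ≃ᵃ[ℝ] P 3) (x : P 3) : g (g⁻¹ x) = x := by
  have h : (g * g⁻¹) x = x := by
    rw [mul_inv_cancel]
    rfl
  exact h

theorem indep_comp (g : P 3 ≃ᵃ[ℝ] P 3) {L : Fin 3 → P 3 →L[ℝ] ℝ} (hL : LinearIndependent ℝ L) :
    LinearIndependent ℝ (fun i => (L i).comp (cl g)) := by
  have h := hL.map' (((ContinuousLinearMap.compL ℝ (P 3) (P 3) ℝ).flip (cl g) :
    (P 3 →L[ℝ] ℝ) →L[ℝ] (P 3 →L[ℝ] ℝ)) : (P 3 →L[ℝ] ℝ) →ₗ[ℝ] (P 3 →L[ℝ] ℝ)) ?_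
  · exact h
  · rw [LinearMap.ker_eq_bot']
    intro M hM
    refine ContinuousLinearMap.ext fun w => ?_
    have h1 : M.comp (cl g) = 0 := hM
    have h2 := congrArg (fun N : P 3 →L[ℝ] ℝ => N (g.linear.symm w)) h1
    simpa [cl_apply] using h2

end CC2aux

open CC2aux

theorem CC2_thm (hCC1 : CC1Stmt) (hPER : PERStmt) (hFDA : FDAStmt) (hFDB : FDBStmt)
    (hPRO : PROStmt) (hGEQ : GEQStmt) (hBBI : BBIStmt) : CC2Stmt := by
  obtain ⟨c, hcs, hc0, hcz, hcc, hcd⟩ := hCC1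
  obtain ⟨hDo, hDb, hDd⟩ := hFDB
  have hclBB : ∀ g ∈ G0, ∀ x : P 3, x ∈ closure BB → g x ∈ closure BB := by
    intro g hg x hx
    have h1 : BB ⊆ (fun y => g y) ⁻¹' closure BB := fun y hy =>
      subset_closure ((hBBI g hg y).2 hy)
    have h2 : IsClosed ((fun y => g y) ⁻¹' closure BB) :=
      isClosed_closure.preimage (affine_continuous g)
    exact closure_minimal h1 h2 hx
  have hclBB' : ∀ g ∈ G0, ∀ x : P 3, g x ∈ closure BB → x ∈ closure BB := by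
    intro g hg x hx
    have := hclBB g⁻¹ (G0.inv_mem hg) _ hx
    rwa [inv_apply_self] at this
  have hdisj : ∀ (r r' : ↥G0) (x : P 3), (r : P 3 ≃ᵃ[ℝ] P 3) x ∈ D0 →
      (r' : P 3 ≃ᵃ[ℝ] P 3) x ∈ D0 → r = r' := by
    intro r r' x h h'
    have h1 : ((r' : P 3 ≃ᵃ[ℝ] P 3) * (r : P 3 ≃ᵃ[ℝ] P 3)⁻¹) ((r : P 3 ≃ᵃ[ℝ] P 3) x) ∈ D0 := by
      have : ((r' : P 3 ≃ᵃ[ℝ] P 3) * (r : P 3 ≃ᵃ[ℝ] P 3)⁻¹) ((r : P 3 ≃ᵃ[ℝ] P 3) x) =
          (r' : P 3 ≃ᵃ[ℝ] P 3) ((r : P 3 ≃ᵃ[ℝ] P 3)⁻¹ ((r : P 3 ≃ᵃ[ℝ] P 3) x)) := rfl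
      rw [this, inv_apply_self]
      exact h'
    have h2 := hFDA _ (G0.mul_mem r'.2 (G0.inv_mem r.2)) _ h h1
    rw [mul_inv_eq_one] at h2
    exact Subtype.ext h2.symm
  have hlf : LocallyFinite (fun r : ↥G0 => {x : P 3 | (r : P 3 ≃ᵃ[ℝ] P 3) x ∈ D0}) := by
    intro x
    refine ⟨Metric.closedBall x 1, Metric.closedBall_mem_nhds x one_pos, ?_⟩
    have hK : IsCompact (Metric.closedBall x 1 ∪ closure D0) :=
      (isCompact_closedBall x 1).union (hDb.isCompact_closure)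
    have hfin := hPRO _ hK
    refine (hfin.preimage (Subtype.val_injective.injOn)).subset ?_
    rintro r ⟨y, hy1, hy2⟩
    exact ⟨r.2, y, Or.inl hy2, Or.inr (subset_closure hy1)⟩
  have hper := fun i => hPER ↥G0 (fun r x => (r : P 3 ≃ᵃ[ℝ] P 3) x) D0 (c i) hDo
    (fun r => affine_contDiff _) hdisj hlf (hcs i) (fun x hx => hcz i x (fun h => hx h.1))
  set C : Fin 3 → P 3 → ℝ := fun i x => ∑ᶠ r : ↥G0, c i ((r : P 3 ≃ᵃ[ℝ] P 3) x) with hC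
  have hC0 : ∀ i x, 0 ≤ C i x := fun i x => finsum_nonneg fun r => hc0 i _
  have hloc : ∀ (r : ↥G0) (x : P 3), (r : P 3 ≃ᵃ[ℝ] P 3) x ∈ D0 →
      ∀ i, C i =ᶠ[𝓝 x] fun y => c i ((r : P 3 ≃ᵃ[ℝ] P 3) y) := by
    intro r x hx i
    have hN : {y : P 3 | (r : P 3 ≃ᵃ[ℝ] P 3) y ∈ D0} ∈ 𝓝 x :=
      (hDo.preimage (affine_continuous (r : P 3 ≃ᵃ[ℝ] P 3))).mem_nhds hx
    filter_upwards [hN] with y hy
    exact (hper i).2.1 r y hy
  refine ⟨C, ?_, hC0, ?_, ?_, ?_⟩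
  · intro i
    refine ⟨(hper i).1, ?_⟩
    intro g hg x
    show ∑ᶠ r : ↥G0, c i ((r : P 3 ≃ᵃ[ℝ] P 3) (g x)) = ∑ᶠ r : ↥G0, c i ((r : P 3 ≃ᵃ[ℝ] P 3) x)
    exact finsum_comp_equiv (Equiv.mulRight (⟨g, hg⟩ : ↥G0))
      (f := fun r : ↥G0 => c i ((r : P 3 ≃ᵃ[ℝ] P 3) x))
  · intro i x hx
    show ∑ᶠ r : ↥G0, c i ((r : P 3 ≃ᵃ[ℝ] P 3) x) = 0
    have : ∀ r : ↥G0, c i ((r : P 3 ≃ᵃ[ℝ] P 3) x) = 0 := fun r =>
      hcz i _ (fun h => h.2 (hclBB r r.2 x hx))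
    simp [this]
  · intro i j x
    by_cases h : ∃ r : ↥G0, (r : P 3 ≃ᵃ[ℝ] P 3) x ∈ D0
    · obtain ⟨r, hr⟩ := h
      have h1 := (hloc r x hr i).fderiv_eq (𝕜 := ℝ)
      have h2 := (hloc r x hr j).fderiv_eq (𝕜 := ℝ)
      have h3 : pb (C i) (C j) x = pb (fun y => c i ((r : P 3 ≃ᵃ[ℝ] P 3) y))
          (fun y => c j ((r : P 3 ≃ᵃ[ℝ] P 3) y)) x := by
        unfold pb
        rw [h1, h2]
      rw [h3, hGEQ _ r.2 _ _ _ (hcs i) (hcs j)]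
      exact hcc i j _
    · push Not at h
      have h1 : C i x = 0 := (hper i).2.2 x h
      have h2 : fderiv ℝ (C i) x = 0 := Pool.Agent.H73.fderiv_of_min (hC0 i) h1
      unfold pb Pool.Agent.H73.bk
      rw [h2]
      simp
  · intro x hx N hN
    have hN1 : interior N ∩ (closure BB)ᶜ ∈ 𝓝 x :=
      Filter.inter_mem (interior_mem_nhds.2 hN) (isClosed_closure.isOpen_compl.mem_nhds hx)
    have hN1o : IsOpen (interior N ∩ (closure BB)ᶜ) :=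
      isOpen_interior.inter isClosed_closure.isOpen_compl
    obtain ⟨y, ⟨g, hg, hgy⟩, hy⟩ := (hDd.inter_nhds_nonempty hN1)
    have hy2 : g y ∉ closure BB := fun h => hy.2 (hclBB' g hg y h)
    have hM : (fun w => g⁻¹ w) ⁻¹' (interior N ∩ (closure BB)ᶜ) ∈ 𝓝 (g y) := by
      refine (hN1o.preimage (affine_continuous g⁻¹)).mem_nhds ?_
      show g⁻¹ (g y) ∈ interior N ∩ (closure BB)ᶜ
      rw [inv_apply_self]
      exact hy
    obtain ⟨w, hw1, hw2, hw3⟩ := hcd (g y) ⟨hgy, hy2⟩ _ hM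
    have hw1' : g⁻¹ w ∈ interior N ∩ (closure BB)ᶜ := hw1
    refine ⟨g⁻¹ w, interior_subset hw1'.1, hw1'.2, ?_⟩
    have hgw : g (g⁻¹ w) = w := apply_inv_self g w
    have hfd : (fun i => fderiv ℝ (C i) (g⁻¹ w)) = fun i => (fderiv ℝ (c i) w).comp (cl g) := by
      funext i
      have h1 := (hloc ⟨g, hg⟩ (g⁻¹ w) (by
        show g (g⁻¹ w) ∈ D0
        rw [hgw]
        exact hw2.1) i).fderiv_eq (𝕜 := ℝ)
      rw [h1]
      have h2 : HasFDerivAt (c i) (fderiv ℝ (c i) w) (g (g⁻¹ w)) := by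
        rw [hgw]
        exact ((hcs i).differentiable (by simp)).differentiableAt.hasFDerivAt
      exact (h2.comp (g⁻¹ w) (hasFDerivAt g (g⁻¹ w))).fderiv
    rw [hfd]
    exact indep_comp g hw3

end Pool.Agent.H25.BCE
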