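import Pool.Agent.H25.BCE.Stmts

/-!
BCE, module NDG: the periodic orbits are transversally nondegenerate.
-/

set_option autoImplicit false

namespace Pool.Agent.H25.BCE

open scoped ContDiff Topology
open Pool.Agent.H73 (P V ex ey pb solA solG mu0 Gam lin)

namespace NDGaux

theorem om_ex0 (v : P 3) : om v (ex 0) = -v.2 0 := by
  simp [om, ex, Pi.single_apply]

theorem om_ex1 (v : P 3) : om v (ex 1) = -v.2 1 := by
  simp [om, ex, Pi.single_apply]

theorem om_ex2 (v : P 3) : om v (ex 2) = -v.2 2 := by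
  simp [om, ex, Pi.single_apply]

theorem om_ey0 (v : P 3) : om v (ey 0) = v.1 0 := by
  simp [om, ey, Pi.single_apply]

theorem om_ey1 (v : P 3) : om v (ey 1) = v.1 1 := by
  simp [om, ey, Pi.single_apply]

theorem om_ey2 (v : P 3) : om v (ey 2) = v.1 2 := by
  simp [om, ey, Pi.single_apply]

theorem const_of_deriv {f : ℝ → ℝ} (h : ∀ t, HasDerivAt f 0 t) (t t' : ℝ) : f t = f t' :=
  is_const_of_deriv_eq_zero (fun t => (h t).differentiableAt) (fun t => (h t).deriv) t t'

theorem zero_of_scale {f : ℝ → ℝ} (h : ∀ t, HasDerivAt f 0 t) {c : ℝ} (hc : c ≠ 0)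
    (hp : ∀ t, f (t + 1) = Real.exp c * f t) (t : ℝ) : f t = 0 := by
  have h1 := hp t
  rw [const_of_deriv h (t + 1) t] at h1
  have h2 : (Real.exp c - 1) * f t = 0 := by linear_combination -h1
  rcases mul_eq_zero.1 h2 with h3 | h3
  · exfalso
    have h4 : Real.exp c = 1 := by linarith
    exact hc (Real.exp_eq_one_iff c |>.1 h4)
  · exact h3

end NDGaux

open NDGaux

theorem NDG_thm (_hDE1 : DE1Stmt) (hDE2 : DE2Stmt) : NDGStmt := by
  intro m a z s hm hs1 hs2 ξ hξ
  have hm0 : (m : ℝ) ≠ 0 := by positivity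
  have hmu : (0 : ℝ) < mu0 := Pool.Agent.H73.mu0_pos
  have hc : mu0 * (m : ℝ) ≠ 0 := mul_ne_zero hmu.ne' hm0
  have hx0 : ∀ t, (orb m a z s t).2 0 = 0 := fun t => by simp [orb]
  have hx1 : ∀ t, (orb m a z s t).2 1 = 0 := fun t => by simp [orb]
  have hx2 : ∀ t, (orb m a z s t).2 2 = s := fun t => by simp [orb]
  have hD2 : ∀ x η w : P 3, fderiv ℝ (fderiv ℝ ((m : ℝ) • Ham)) x η w =
      m * fderiv ℝ (fderiv ℝ Ham) x η w := by
    intro x η w
    have h1 : fderiv ℝ ((m : ℝ) • Ham) = (m : ℝ) • fderiv ℝ Ham :=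
      fderiv_const_smul_field (m : ℝ)
    have h2 : fderiv ℝ ((m : ℝ) • fderiv ℝ Ham) = (m : ℝ) • fderiv ℝ (fderiv ℝ Ham) :=
      fderiv_const_smul_field (𝕜 := ℝ) (E := P 3) (F := P 3 →L[ℝ] ℝ) (f := fderiv ℝ Ham) (m : ℝ)
    rw [h1, h2]
    rfl
  have hham := hξ.ham
  choose v hv hom using hham
  have hv1 : ∀ i t, HasDerivAt (fun t => (ξ t).1 i) ((v t).1 i) t := by
    intro i t
    have h1 : HasDerivAt (fun t => (ξ t).1) ((v t).1) t := (hv t).fst
    exact (hasDerivAt_pi.1 h1) i
  have hv2 : ∀ i t, HasDerivAt (fun t => (ξ t).2 i) ((v t).2 i) t := by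
    intro i t
    have h1 : HasDerivAt (fun t => (ξ t).2) ((v t).2) t := (hv t).snd
    exact (hasDerivAt_pi.1 h1) i
  have hper1 : ∀ i t, (ξ (t + 1)).1 i = Real.exp (mu0 * m * wt i) * (ξ t).1 i := by
    intro i t
    rw [hξ.per t, dk_linear, LL_fst]
    push_cast
    rfl
  have hper2 : ∀ i t, (ξ (t + 1)).2 i = Real.exp (-(mu0 * m * wt i)) * (ξ t).2 i := by
    intro i t
    rw [hξ.per t, dk_linear, LL_snd]
    push_cast
    rfl
  -- the momenta
  have h20 : ∀ t, (ξ t).2 0 = 0 := by
    refine zero_of_scale (f := fun t => (ξ t).2 0) (c := -(mu0 * m)) ?_ (neg_ne_zero.2 hc) ?_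
    · intro t
      have h1 := hom t (ex 0)
      rw [om_ex0, hD2, (hDE2.1 _ _).1, mul_zero] at h1
      have h2 := hv2 0 t
      rw [neg_eq_zero.1 h1] at h2
      exact h2
    · intro t
      have := hper2 0 t
      simpa [wt] using this
  have h21 : ∀ t, (ξ t).2 1 = 0 := by
    refine zero_of_scale (f := fun t => (ξ t).2 1) (c := mu0 * m) ?_ hc ?_
    · intro t
      have h1 := hom t (ex 1)
      rw [om_ex1, hD2, (hDE2.1 _ _).2, mul_zero] at h1
      have h2 := hv2 1 t
      rw [neg_eq_zero.1 h1] at h2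
      exact h2
    · intro t
      have := hper2 1 t
      simpa [wt] using this
  have hom' : ∀ t w, om (v t) w = m * (deriv (deriv ff) s * (ξ t).2 2 * w.2 2) := by
    intro t w
    rw [hom t w, hD2, hDE2.2 _ _ (hx0 t) (hx1 t) (h20 t) (h21 t), hx2]
  have h10 : ∀ t, (ξ t).1 0 = 0 := by
    refine zero_of_scale (f := fun t => (ξ t).1 0) (c := mu0 * m) ?_ hc ?_
    · intro t
      have h1 := hom' t (ey 0)
      rw [om_ey0] at h1
      have h2 := hv1 0 t
      rw [h1] at h2
      simpa [ey, Pi.single_apply] using h2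
    · intro t
      have := hper1 0 t
      simpa [wt] using this
  have h11 : ∀ t, (ξ t).1 1 = 0 := by
    refine zero_of_scale (f := fun t => (ξ t).1 1) (c := -(mu0 * m)) ?_ (neg_ne_zero.2 hc) ?_
    · intro t
      have h1 := hom' t (ey 1)
      rw [om_ey1] at h1
      have h2 := hv1 1 t
      rw [h1] at h2
      simpa [ey, Pi.single_apply] using h2
    · intro t
      have := hper1 1 t
      simpa [wt] using this
  have h22d : ∀ t, HasDerivAt (fun t => (ξ t).2 2) 0 t := by
    intro t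
    have h1 := hom' t (ex 2)
    rw [om_ex2] at h1
    have h2 := hv2 2 t
    have h3 : (v t).2 2 = 0 := by
      simpa [ex] using h1
    rw [h3] at h2
    exact h2
  have h22c : ∀ t, (ξ t).2 2 = (ξ 0).2 2 := fun t => const_of_deriv h22d t 0
  have h12d : ∀ t, HasDerivAt (fun t => (ξ t).1 2) (m * (deriv (deriv ff) s * (ξ 0).2 2)) t := by
    intro t
    have h1 := hom' t (ey 2)
    rw [om_ey2, h22c t] at h1
    have h2 := hv1 2 t
    rw [h1] at h2
    simpa [ey] using h2
  have h12a : ∀ t, (ξ t).1 2 = (ξ 0).1 2 + m * (deriv (deriv ff) s * (ξ 0).2 2) * t := by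
    intro t
    have h1 : ∀ t, HasDerivAt
        (fun t => (ξ t).1 2 - m * (deriv (deriv ff) s * (ξ 0).2 2) * t) 0 t := by
      intro t
      have := (h12d t).sub ((hasDerivAt_id t).const_mul (m * (deriv (deriv ff) s * (ξ 0).2 2)))
      rw [mul_one, sub_self] at this
      exact this
    have h2 := const_of_deriv h1 t 0
    simp only [mul_zero, sub_zero] at h2
    linarith
  have h22 : (ξ 0).2 2 = 0 := by
    have h1 := hper1 2 0
    rw [h12a (0 + 1)] at h1
    have h2 : (m : ℝ) * (deriv (deriv ff) s * (ξ 0).2 2) = 0 := by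
      have h3 : Real.exp (mu0 * m * wt 2) = 1 := by simp [wt]
      rw [h3] at h1
      linarith
    rcases mul_eq_zero.1 h2 with h3 | h3
    · exact absurd h3 hm0
    · rcases mul_eq_zero.1 h3 with h4 | h4
      · exact absurd h4 hs2
      · exact h4
  have hder : ∀ t, deriv (orb m a z s) t = (![0, 0, (m : ℝ)], ![0, 0, 0]) := by
    intro t
    apply HasDerivAt.deriv
    refine HasDerivAt.prodMk ?_ ?_
    · rw [hasDerivAt_pi]
      intro i
      fin_cases i
      · exact hasDerivAt_const _ _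
      · exact hasDerivAt_const _ _
      · have := ((hasDerivAt_id t).const_mul (m : ℝ)).const_add z
        simpa using this
    · rw [hasDerivAt_pi]
      intro i
      fin_cases i <;> exact hasDerivAt_const _ _
  refine ⟨(ξ 0).1 2 / m, fun t => ?_⟩
  rw [hder t]
  refine Prod.ext ?_ ?_
  · funext i
    fin_cases i
    · simpa using h10 t
    · simpa using h11 t
    · have h1 := h12a t
      rw [h22] at h1
      simp only [mul_zero, zero_mul, add_zero] at h1
      simp only [Fin.reduceFinMk, Prod.smul_mk, Matrix.smul_cons, smul_eq_mul, mul_zero]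
      rw [h1]
      simp [div_mul_cancel₀ _ hm0]
  · funext i
    fin_cases i
    · simpa using h20 t
    · simpa using h21 t
    · simpa [h22] using h22c t

end Pool.Agent.H25.BCE
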